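import Pool.Agent.Y298.LC.Stm

/-!
# LC-SECT: inside and outside of a loop of two rays and an arc
-/

set_option autoImplicit false
set_option linter.all false

open Set Filter Metric Topology Complex Bornology

namespace Pool.Agent.Y319.LC

open Pool.Agent.Y298.LC

/-- A holomorphic injective function on an open set has non-vanishing derivative.
(Proof copied from `Pool.Agent.Helper859.SP.T15`.) -/
lemma deriv_ne_zero_of_injOn' {f : ℂ → ℂ} {U : Set ℂ} (hU : IsOpen U)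
    (hf : DifferentiableOn ℂ f U)
    (hinj : Set.InjOn f U) {z₀ : ℂ} (hz : z₀ ∈ U) : deriv f z₀ ≠ 0 := by
  intro h0
  have hfa : AnalyticAt ℂ f z₀ := hf.analyticAt (hU.mem_nhds hz)
  have hFa : AnalyticAt ℂ (fun z => f z - f z₀) z₀ := hfa.sub analyticAt_const
  have hne : ¬ ∀ᶠ z in 𝓝 z₀, f z - f z₀ = 0 := by
    intro h
    have h1 : ∀ᶠ z in 𝓝[≠] z₀, f z - f z₀ = 0 ∧ z ∈ U ∧ z ≠ z₀ := by
      filter_upwards [h.filter_mono nhdsWithin_le_nhds,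
        (hU.mem_nhds hz |> fun h => mem_nhdsWithin_of_mem_nhds h),
        self_mem_nhdsWithin] with z h1 h2 h3
      exact ⟨h1, h2, h3⟩
    obtain ⟨z, hz1, hz2, hz3⟩ := h1.exists
    exact hz3 (hinj hz2 hz (sub_eq_zero.mp hz1))
  obtain ⟨n, g, hga, hg0, hgeq⟩ := hFa.exists_eventuallyEq_pow_smul_nonzero_iff.mpr hne
  have hn0 : n ≠ 0 := by
    rintro rfl
    have := hgeq.self_of_nhds
    simp at this
    exact hg0 this.symm
  have hn1 : n ≠ 1 := by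
    rintro rfl
    have h1 : HasDerivAt (fun z => (z - z₀) ^ 1 • g z) (g z₀) z₀ := by
      have h2 := ((hasDerivAt_id z₀).sub_const z₀).mul hga.differentiableAt.hasDerivAt
      simpa using! h2
    have h3 : HasDerivAt (fun z => f z - f z₀) (g z₀) z₀ := h1.congr_of_eventuallyEq hgeq
    have h4 : HasDerivAt f (g z₀) z₀ := by simpa using h3.add_const (f z₀)
    rw [h4.deriv] at h0
    exact hg0 h0
  obtain ⟨c, hc⟩ := IsAlgClosed.exists_pow_nat_eq (g z₀) (Nat.pos_of_ne_zero hn0)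
  have hc0 : c ≠ 0 := by
    rintro rfl
    rw [zero_pow hn0] at hc
    exact hg0 hc.symm
  set h : ℂ → ℂ := fun z => c * (g z / g z₀) ^ (1 / (n : ℂ)) with hh
  have hslit : g z₀ / g z₀ ∈ Complex.slitPlane := by
    rw [div_self hg0]; exact Complex.one_mem_slitPlane
  have hha : AnalyticAt ℂ h z₀ := by
    apply analyticAt_const.mul
    exact (hga.div analyticAt_const hg0).cpow analyticAt_const hslit
  have hnC : (n : ℂ) ≠ 0 := by exact_mod_cast hn0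
  have hhn : ∀ z, h z ^ n = g z := by
    intro z
    rw [hh]
    simp only
    rw [mul_pow, hc, ← Complex.cpow_mul_nat]
    rw [one_div, inv_mul_cancel₀ hnC, Complex.cpow_one]
    field_simp
  have hh0 : h z₀ = c := by
    rw [hh]; simp [div_self hg0]
  set φ : ℂ → ℂ := fun z => (z - z₀) * h z with hφ
  have hφd : HasStrictDerivAt φ c z₀ := by
    have h1 : HasStrictDerivAt h (deriv h z₀) z₀ := hha.hasStrictDerivAt
    have h2 : HasStrictDerivAt (fun z : ℂ => z - z₀) 1 z₀ :=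
      (hasStrictDerivAt_id z₀).sub_const z₀
    have h3 := h2.mul h1
    rw [← hh0]
    simpa using! h3
  have hmap : map φ (𝓝 z₀) = 𝓝 0 := by
    have := hφd.map_nhds_eq hc0
    rw [this]
    congr 1
    rw [hφ]; simp
  have hV : ∀ᶠ z in 𝓝 z₀, z ∈ U ∧ f z - f z₀ = φ z ^ n := by
    filter_upwards [hU.mem_nhds hz, hgeq] with z h1 h2
    refine ⟨h1, ?_⟩
    rw [h2, hφ]
    simp only
    rw [mul_pow, hhn, smul_eq_mul]
  obtain ⟨V, hVm, hV2⟩ := hV.exists_mem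
  have himg : φ '' V ∈ 𝓝 (0 : ℂ) := by
    rw [← hmap]
    exact image_mem_map hVm
  set ζ : ℂ := Complex.exp (2 * Real.pi * I / n) with hζ
  have hprim : IsPrimitiveRoot ζ n := Complex.isPrimitiveRoot_exp n hn0
  have hζ1 : ζ ≠ 1 := hprim.ne_one (by omega)
  have hζn : ζ ^ n = 1 := hprim.pow_eq_one
  have hcont : Tendsto (fun w : ℂ => ζ * w) (𝓝 0) (𝓝 0) := by
    have : Continuous (fun w : ℂ => ζ * w) := by fun_prop
    simpa using this.tendsto 0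
  have hboth : ∀ᶠ w in 𝓝[≠] (0 : ℂ), w ∈ φ '' V ∧ ζ * w ∈ φ '' V ∧ w ≠ 0 := by
    filter_upwards [mem_nhdsWithin_of_mem_nhds himg, mem_nhdsWithin_of_mem_nhds (hcont himg),
      self_mem_nhdsWithin] with w h1 h2 h3
    exact ⟨h1, h2, h3⟩
  obtain ⟨w, ⟨z1, hz1, hw1⟩, ⟨z2, hz2, hw2⟩, hw0⟩ := hboth.exists
  have e1 := (hV2 z1 hz1).2
  have e2 := (hV2 z2 hz2).2
  rw [hw1] at e1
  rw [hw2, mul_pow, hζn, one_mul] at e2
  have e3 : f z1 = f z2 := by
    have : f z1 - f z₀ = f z2 - f z₀ := by rw [e1, e2]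
    linear_combination this
  have e4 := hinj (hV2 z1 hz1).1 (hV2 z2 hz2).1 e3
  rw [← e4, hw1] at hw2
  apply hζ1
  have : (ζ - 1) * w = 0 := by linear_combination -hw2
  rcases mul_eq_zero.mp this with h1 | h1
  · linear_combination h1
  · exact absurd h1 hw0

/-! ### The jump lemma -/

theorem const_int (f : ℝ → ℝ) (a b : ℝ) (hab : a ≤ b) (hc : ContinuousOn f (Icc a b))
    (hf : ∀ τ ∈ Icc a b, ∃ n : ℤ, f τ = n * (2 * Real.pi)) : f a = f b := by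
  have hpi := Real.pi_pos
  obtain ⟨n, hn⟩ := hf a ⟨le_rfl, hab⟩
  obtain ⟨m, hm⟩ := hf b ⟨hab, le_rfl⟩
  have key : ∀ (k : ℤ), (k : ℝ) * (2 * Real.pi) + Real.pi ∉ f '' Icc a b := by
    rintro k ⟨τ, hτ, h⟩
    obtain ⟨l, hl⟩ := hf τ hτ
    rw [hl] at h
    have h2 : (l : ℝ) * 2 = k * 2 + 1 := by
      have : ((l : ℝ) * 2 - (k * 2 + 1)) * Real.pi = 0 := by linear_combination h
      rcases mul_eq_zero.1 this with h3 | h3
      · linarith
      · exact absurd h3 hpi.ne'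
    have h3 : l * 2 = k * 2 + 1 := by exact_mod_cast h2
    omega
  have hpre : IsPreconnected (f '' Icc a b) := isPreconnected_Icc.image f hc
  have hord := hpre.ordConnected
  have ha : f a ∈ f '' Icc a b := ⟨a, ⟨le_rfl, hab⟩, rfl⟩
  have hb : f b ∈ f '' Icc a b := ⟨b, ⟨hab, le_rfl⟩, rfl⟩
  rw [hn, hm]
  rcases lt_trichotomy n m with h | h | h
  · exfalso
    apply key n
    have h1 : ((n : ℝ) + 1) ≤ m := by exact_mod_cast h
    refine hord.out ha hb ⟨?_, ?_⟩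
    · rw [hn]; linarith
    · rw [hm]; nlinarith
  · rw [h]
  · exfalso
    apply key m
    have h1 : ((m : ℝ) + 1) ≤ n := by exact_mod_cast h
    refine hord.out hb ha ⟨?_, ?_⟩
    · rw [hm]; linarith
    · rw [hn]; nlinarith

theorem slit_of (a z : ℂ) (hz : 0 ≤ z.re) (ha : ‖a - z‖ < ‖z‖) : a ∈ slitPlane := by
  rw [mem_slitPlane_iff]
  by_contra hcon
  push Not at hcon
  obtain ⟨h1, h2⟩ := hcon
  have h3 : ‖z‖ ^ 2 ≤ ‖a - z‖ ^ 2 := by
    rw [← normSq_eq_norm_sq, ← normSq_eq_norm_sq, normSq_apply, normSq_apply, sub_re, sub_im, h2]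
    nlinarith
  exact absurd (lt_of_pow_lt_pow_left₀ 2 (norm_nonneg _) (lt_of_lt_of_le (pow_lt_pow_left₀ ha (norm_nonneg _) two_ne_zero) h3)) (lt_irrefl _)

theorem exp_im (D R : ℂ) (h : Complex.exp D = R) : ∃ n : ℤ, D.im - arg R = n * (2 * Real.pi) := by
  have hR : R ≠ 0 := by rw [← h]; exact Complex.exp_ne_zero D
  have h1 : Complex.exp D = Complex.exp (Complex.log R) := by rw [h, Complex.exp_log hR]
  rw [Complex.exp_eq_exp_iff_exists_int] at h1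
  obtain ⟨n, hn⟩ := h1
  refine ⟨n, ?_⟩
  rw [hn, add_im, log_im]
  simp

/-- algebra of the quotient near the crossing -/
theorem quot_near (κ e₁ e₂ : ℂ) (y η : ℝ) (hκ : κ ≠ 0) (hη : 0 < η) (h1 : ‖e₁‖ ≤ 1 / 8)
    (h2 : ‖e₂‖ ≤ 1 / 8) (N D : ℂ) (hN : N = κ * (y * I + η) * (1 + e₁))
    (hD : D = κ * (y * I - η) * (1 + e₂)) :
    ‖N / D - (((y ^ 2 - η ^ 2) / (y ^ 2 + η ^ 2) : ℝ) + ((-(2 * y * η) / (y ^ 2 + η ^ 2) : ℝ) : ℂ) * I)‖
      < ‖(((y ^ 2 - η ^ 2) / (y ^ 2 + η ^ 2) : ℝ) : ℂ) + ((-(2 * y * η) / (y ^ 2 + η ^ 2) : ℝ) : ℂ) * I‖ := by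
  have hs : (0 : ℝ) < y ^ 2 + η ^ 2 := by positivity
  have hsC : ((y : ℂ) ^ 2 + (η : ℂ) ^ 2) ≠ 0 := by exact_mod_cast hs.ne'
  have hyn : (y : ℂ) * I - η ≠ 0 := by
    intro h0
    have := congrArg Complex.re h0
    simp at this
    exact hη.ne' this
  have hyp : (y : ℂ) * I + η ≠ 0 := by
    intro h0
    have := congrArg Complex.re h0
    simp at this
    exact hη.ne' this
  have h2n : ‖1 + e₂‖ ≥ 7 / 8 := by
    have := norm_sub_norm_le (1 : ℂ) (-e₂)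
    rw [norm_one, norm_neg, sub_neg_eq_add] at this
    linarith
  have h2z : 1 + e₂ ≠ 0 := by
    intro h0
    rw [h0, norm_zero] at h2n
    linarith
  obtain ⟨Z, hZ⟩ : ∃ Z : ℂ, Z = (((y ^ 2 - η ^ 2) / (y ^ 2 + η ^ 2) : ℝ) : ℂ) +
    ((-(2 * y * η) / (y ^ 2 + η ^ 2) : ℝ) : ℂ) * I := ⟨_, rfl⟩
  have hZ1 : Z = (y * I + η) / (y * I - η) := by
    rw [eq_div_iff hyn, hZ]
    push_cast
    field_simp
    have := Complex.I_sq
    linear_combination (-2 * (y : ℂ) ^ 2 * η) * this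
  have hZ0 : Z ≠ 0 := by rw [hZ1]; exact div_ne_zero hyp hyn
  rw [← hZ]
  have h3 : N / D - Z = Z * ((e₁ - e₂) / (1 + e₂)) := by
    rw [hN, hD, hZ1]
    field_simp
    ring
  rw [h3, norm_mul, norm_div]
  have h4 : ‖e₁ - e₂‖ / ‖1 + e₂‖ < 1 := by
    rw [div_lt_one (by linarith)]
    have := norm_sub_le e₁ e₂
    linarith
  have h5 : 0 < ‖Z‖ := norm_pos_iff.2 hZ0
  nlinarith

theorem jump (γ : ℝ → ℂ) (hγ : ContinuousOn γ (Icc 0 1)) (hcl : γ 0 = γ 1) (H : ℂ → ℂ)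
    (ζ₀ κ : ℂ) (hκ : κ ≠ 0) (hH : HasStrictDerivAt H κ ζ₀) (A : ℝ) (hA : 0 < A)
    (hloc : ∀ τ ∈ Icc (1 / 3 : ℝ) (2 / 3), γ τ = H (ζ₀ + ((A * (τ - 1 / 2) : ℝ) : ℂ) * I))
    (hne : ∀ τ ∈ Icc (0 : ℝ) 1, τ ≠ 1 / 2 → γ τ ≠ H ζ₀) :
    ∃ η₀ : ℝ, 0 < η₀ ∧ ∀ η : ℝ, 0 < η → η < η₀ → Enc γ (H (ζ₀ + η)) ∨ Enc γ (H (ζ₀ - η)) := by
  have hκn : 0 < ‖κ‖ := norm_pos_iff.2 hκ
  -- uniform estimate
  obtain ⟨δ₀, hδ₀, hest⟩ : ∃ δ₀ : ℝ, 0 < δ₀ ∧ ∀ ζ ∈ ball ζ₀ δ₀, ∀ ζ' ∈ ball ζ₀ δ₀,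
      ‖H ζ - H ζ' - (ζ - ζ') * κ‖ ≤ ‖κ‖ / 8 * ‖ζ - ζ'‖ := by
    have h1 := hH.isLittleO.def (show 0 < ‖κ‖ / 8 by positivity)
    rw [Metric.eventually_nhds_iff_ball] at h1
    obtain ⟨δ₀, hδ₀, h1⟩ := h1
    refine ⟨δ₀, hδ₀, fun ζ hζ ζ' hζ' => ?_⟩
    have := h1 (ζ, ζ') (by
      rw [mem_ball, Prod.dist_eq]
      exact max_lt (mem_ball.1 hζ) (mem_ball.1 hζ'))
    simpa [smul_eq_mul, mul_comm] using this
  have hest2 : ∀ ζ ∈ ball ζ₀ δ₀, ∀ ζ' ∈ ball ζ₀ δ₀, ζ ≠ ζ' →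
      ∃ e : ℂ, ‖e‖ ≤ 1 / 8 ∧ H ζ - H ζ' = κ * (ζ - ζ') * (1 + e) := by
    intro ζ hζ ζ' hζ' hne
    have h1 := hest ζ hζ ζ' hζ'
    have h2 : ζ - ζ' ≠ 0 := sub_ne_zero.2 hne
    refine ⟨(H ζ - H ζ' - (ζ - ζ') * κ) / (κ * (ζ - ζ')), ?_, ?_⟩
    · rw [norm_div, norm_mul, div_le_iff₀ (mul_pos hκn (norm_pos_iff.2 h2))]
      calc _ ≤ _ := h1
        _ = _ := by ring
    · field_simp
      ring
  -- the near region
  obtain ⟨δ, hδ, hδ6, hδA⟩ : ∃ δ : ℝ, 0 < δ ∧ δ ≤ 1 / 6 ∧ A * δ < δ₀ := by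
    refine ⟨min (1 / 6) (δ₀ / (2 * A)), lt_min (by norm_num) (by positivity), min_le_left _ _, ?_⟩
    calc A * min (1 / 6) (δ₀ / (2 * A)) ≤ A * (δ₀ / (2 * A)) := by
          gcongr
          exact min_le_right _ _
      _ = δ₀ / 2 := by field_simp
      _ < δ₀ := by linarith
  -- the far region
  obtain ⟨m, hm, hfar⟩ : ∃ m : ℝ, 0 < m ∧ ∀ τ ∈ Icc (0 : ℝ) 1, δ ≤ |τ - 1 / 2| →
      m ≤ ‖γ τ - H ζ₀‖ := by
    have hK : IsCompact (Icc (0 : ℝ) 1 ∩ {τ | δ ≤ |τ - 1 / 2|}) :=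
      isCompact_Icc.inter_right (isClosed_le continuous_const (by fun_prop))
    have hne0 : (Icc (0 : ℝ) 1 ∩ {τ | δ ≤ |τ - 1 / 2|}).Nonempty := by
      refine ⟨0, ⟨by norm_num, ?_⟩⟩
      change δ ≤ |(0 : ℝ) - 1 / 2|
      rw [abs_of_neg (by norm_num)]
      linarith
    obtain ⟨τ₁, hτ₁, hmin⟩ := hK.exists_isMinOn hne0
      (f := fun τ => ‖γ τ - H ζ₀‖)
      (((hγ.mono inter_subset_left).sub continuousOn_const).norm)
    refine ⟨‖γ τ₁ - H ζ₀‖, ?_, fun τ h1 h2 => hmin ⟨h1, h2⟩⟩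
    rw [norm_pos_iff, sub_ne_zero]
    apply hne _ hτ₁.1
    rintro rfl
    have := hτ₁.2
    change δ ≤ |(1 / 2 : ℝ) - 1 / 2| at this
    rw [sub_self, abs_zero] at this
    linarith
  refine ⟨min (A * δ) (m / (16 * ‖κ‖)), lt_min (by positivity) (by positivity), ?_⟩
  intro η hη hη0
  have hη1 : η < A * δ := lt_of_lt_of_le hη0 (min_le_left _ _)
  have hη2 : η < m / (16 * ‖κ‖) := lt_of_lt_of_le hη0 (min_le_right _ _)
  rw [lt_div_iff₀ (by positivity)] at hη2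
  by_contra hcon
  rw [not_or] at hcon
  obtain ⟨ha, hb⟩ := hcon
  unfold Enc at ha hb
  rw [not_not] at ha hb
  obtain ⟨La, hLac, hLae, hLa⟩ := ha
  obtain ⟨Lb, hLbc, hLbe, hLb⟩ := hb
  have hball0 : ζ₀ ∈ ball ζ₀ δ₀ := mem_ball_self hδ₀
  have hballp : ζ₀ + (η : ℂ) ∈ ball ζ₀ δ₀ := by
    rw [mem_ball, dist_eq_norm, add_sub_cancel_left, Complex.norm_real, Real.norm_eq_abs, abs_of_pos hη]
    linarith
  have hballm : ζ₀ - (η : ℂ) ∈ ball ζ₀ δ₀ := by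
    rw [mem_ball, dist_eq_norm, sub_sub_cancel_left, norm_neg, Complex.norm_real, Real.norm_eq_abs,
      abs_of_pos hη]
    linarith
  have hpa : ‖H (ζ₀ + η) - H ζ₀‖ ≤ m / 8 := by
    have h1 := hest _ hballp _ hball0
    rw [add_sub_cancel_left] at h1
    have h2 : ‖H (ζ₀ + η) - H ζ₀‖ ≤ ‖H (ζ₀ + η) - H ζ₀ - (η : ℂ) * κ‖ + ‖(η : ℂ) * κ‖ := by
      have := norm_add_le (H (ζ₀ + η) - H ζ₀ - (η : ℂ) * κ) ((η : ℂ) * κ)
      rwa [sub_add_cancel] at this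
    rw [norm_mul, Complex.norm_real, Real.norm_eq_abs, abs_of_pos hη] at h2
    rw [Complex.norm_real, Real.norm_eq_abs, abs_of_pos hη] at h1
    nlinarith
  have hpb : ‖H (ζ₀ - η) - H ζ₀‖ ≤ m / 8 := by
    have h1 := hest _ hballm _ hball0
    rw [sub_sub_cancel_left] at h1
    have h2 : ‖H (ζ₀ - η) - H ζ₀‖ ≤ ‖H (ζ₀ - η) - H ζ₀ - (-(η : ℂ)) * κ‖ + ‖(-(η : ℂ)) * κ‖ := by
      have := norm_add_le (H (ζ₀ - η) - H ζ₀ - (-(η : ℂ)) * κ) ((-(η : ℂ)) * κ)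
      rwa [sub_add_cancel] at this
    rw [norm_mul, norm_neg, Complex.norm_real, Real.norm_eq_abs, abs_of_pos hη] at h2
    rw [norm_neg, Complex.norm_real, Real.norm_eq_abs, abs_of_pos hη] at h1
    nlinarith
  obtain ⟨R, hR⟩ : ∃ R : ℝ → ℂ, R = fun τ => (γ τ - H (ζ₀ - η)) / (γ τ - H (ζ₀ + η)) := ⟨_, rfl⟩
  obtain ⟨D, hD⟩ : ∃ D : ℝ → ℂ, D = fun τ => Lb τ - La τ := ⟨_, rfl⟩
  have hDc : ContinuousOn D (Icc 0 1) := by rw [hD]; exact hLbc.sub hLac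
  have hDe : ∀ τ ∈ Icc (0 : ℝ) 1, Complex.exp (D τ) = R τ := by
    intro τ hτ
    rw [hD, hR]
    simp only
    rw [Complex.exp_sub, hLae τ hτ, hLbe τ hτ]
  have hDcl : D 0 = D 1 := by rw [hD]; simp only; rw [hLa, hLb]
  have hden : ∀ τ ∈ Icc (0 : ℝ) 1, γ τ - H (ζ₀ + η) ≠ 0 := by
    intro τ hτ
    rw [← hLae τ hτ]
    exact Complex.exp_ne_zero _
  have hRc : ContinuousOn R (Icc 0 1) := by
    rw [hR]
    exact (hγ.sub continuousOn_const).div (hγ.sub continuousOn_const) hden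
  have hRcl : R 0 = R 1 := by rw [hR]; simp only; rw [hcl]
  -- values in the far region
  have hRfar : ∀ τ ∈ Icc (0 : ℝ) 1, δ ≤ |τ - 1 / 2| → R τ ∈ slitPlane := by
    intro τ hτ h
    apply slit_of _ 1 (by simp)
    rw [norm_one]
    have h1 := hfar τ hτ h
    have h2 : R τ - 1 = (H (ζ₀ + η) - H (ζ₀ - η)) / (γ τ - H (ζ₀ + η)) := by
      rw [hR]
      simp only
      have := hden τ hτ
      field_simp
      ring
    have h3 : ‖γ τ - H (ζ₀ + η)‖ ≥ 7 * m / 8 := by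
      have h4 : ‖γ τ - H ζ₀‖ ≤ ‖γ τ - H (ζ₀ + η)‖ + ‖H (ζ₀ + η) - H ζ₀‖ := by
        have := norm_add_le (γ τ - H (ζ₀ + η)) (H (ζ₀ + η) - H ζ₀)
        rwa [sub_add_sub_cancel] at this
      linarith
    have h5 : ‖H (ζ₀ + η) - H (ζ₀ - η)‖ ≤ m / 4 := by
      have h6 : ‖H (ζ₀ + η) - H (ζ₀ - η)‖ ≤ ‖H (ζ₀ + η) - H ζ₀‖ + ‖H (ζ₀ - η) - H ζ₀‖ := by
        have := norm_sub_le (H (ζ₀ + η) - H ζ₀) (H (ζ₀ - η) - H ζ₀)
        rwa [sub_sub_sub_cancel_right] at this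
      linarith
    rw [h2, norm_div, div_lt_one (by linarith)]
    linarith
  -- values in the near region
  have hnear : ∀ τ ∈ Icc (0 : ℝ) 1, |τ - 1 / 2| ≤ δ → ∀ y : ℝ, y = A * (τ - 1 / 2) →
      ‖R τ - (((y ^ 2 - η ^ 2) / (y ^ 2 + η ^ 2) : ℝ) +
        ((-(2 * y * η) / (y ^ 2 + η ^ 2) : ℝ) : ℂ) * I)‖ <
      ‖(((y ^ 2 - η ^ 2) / (y ^ 2 + η ^ 2) : ℝ) : ℂ) +
        ((-(2 * y * η) / (y ^ 2 + η ^ 2) : ℝ) : ℂ) * I‖ := by
    intro τ hτ h y hy
    rw [abs_le] at h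
    have h1 := hloc τ ⟨by linarith, by linarith⟩
    rw [← hy] at h1
    have hyb : |y| < δ₀ := by
      rw [hy, abs_mul, abs_of_pos hA]
      have : |τ - 1 / 2| ≤ δ := abs_le.2 h
      nlinarith
    have hby : ζ₀ + (y : ℂ) * I ∈ ball ζ₀ δ₀ := by
      rw [mem_ball, dist_eq_norm, add_sub_cancel_left, norm_mul, Complex.norm_I, mul_one,
        Complex.norm_real, Real.norm_eq_abs]
      exact hyb
    have hn1 : ζ₀ + (y : ℂ) * I ≠ ζ₀ - η := by
      intro h0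
      have := congrArg Complex.re h0
      simp at this
      linarith
    have hn2 : ζ₀ + (y : ℂ) * I ≠ ζ₀ + η := by
      intro h0
      have := congrArg Complex.re h0
      simp at this
      linarith
    obtain ⟨e₁, he₁, h3⟩ := hest2 _ hby _ hballm hn1
    obtain ⟨e₂, he₂, h4⟩ := hest2 _ hby _ hballp hn2
    rw [hR]
    simp only
    rw [h1]
    refine quot_near κ e₁ e₂ y η hκ hη he₁ he₂ _ _ ?_ ?_
    · rw [h3]; ring
    · rw [h4]; ring
  have hRnear : ∀ τ ∈ Icc (0 : ℝ) 1, |τ - 1 / 2| ≤ δ → η ≤ A * |τ - 1 / 2| → R τ ∈ slitPlane := by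
    intro τ hτ h h'
    refine slit_of _ _ ?_ (hnear τ hτ h _ rfl)
    simp only [add_re, ofReal_re, mul_re, I_re, mul_zero, ofReal_im, I_im, mul_one, sub_self,
      add_zero]
    apply div_nonneg _ (by positivity)
    rw [mul_pow, ← sq_abs (τ - 1 / 2), ← mul_pow]
    nlinarith
  have hRneg : ∀ τ ∈ Icc (0 : ℝ) 1, |τ - 1 / 2| ≤ δ → A * |τ - 1 / 2| ≤ η → -R τ ∈ slitPlane := by
    intro τ hτ h h'
    have h1 := hnear τ hτ h _ rfl
    rw [← norm_neg] at h1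
    rw [← norm_neg (((_ : ℝ) : ℂ) + _)] at h1
    refine slit_of _ (-((((A * (τ - 1 / 2)) ^ 2 - η ^ 2) / ((A * (τ - 1 / 2)) ^ 2 + η ^ 2) : ℝ) +
        ((-(2 * (A * (τ - 1 / 2)) * η) / ((A * (τ - 1 / 2)) ^ 2 + η ^ 2) : ℝ) : ℂ) * I)) ?_ ?_
    · simp only [neg_re, add_re, ofReal_re, mul_re, I_re, mul_zero, ofReal_im, I_im, mul_one, sub_self,
        add_zero]
      rw [neg_nonneg]
      apply div_nonpos_of_nonpos_of_nonneg _ (by positivity)
      rw [mul_pow, ← sq_abs (τ - 1 / 2), ← mul_pow]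
      have : 0 ≤ A * |τ - 1 / 2| := by positivity
      nlinarith
    · rw [neg_sub_neg, ← neg_sub]
      exact h1
  -- the two times
  obtain ⟨h, hh⟩ : ∃ h : ℝ, h = η / A := ⟨_, rfl⟩
  have hAh : A * h = η := by rw [hh]; field_simp
  have hh0 : 0 < h := by rw [hh]; positivity
  have hhδ : h ≤ δ := by
    rw [hh, div_le_iff₀ hA]; linarith
  have hargc : ∀ (g : ℝ → ℂ) (S : Set ℝ), ContinuousOn g S → (∀ τ ∈ S, g τ ∈ slitPlane) →
      ContinuousOn (fun τ => arg (g τ)) S := fun g S hg hs τ hτ =>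
    (continuousAt_arg (hs τ hτ)).comp_continuousWithinAt (hg τ hτ)
  have himc : ∀ S ⊆ Icc (0 : ℝ) 1, ContinuousOn (fun τ => (D τ).im) S := fun S hS =>
    Complex.continuous_im.comp_continuousOn (hDc.mono hS)
  have c1 : (D 0).im - arg (R 0) = (D (1 / 2 - h)).im - arg (R (1 / 2 - h)) := by
    have hsub : Icc (0 : ℝ) (1 / 2 - h) ⊆ Icc 0 1 := Icc_subset_Icc_right (by linarith)
    refine const_int (fun τ => (D τ).im - arg (R τ)) 0 (1 / 2 - h) (by linarith)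
      ((himc _ hsub).sub (hargc R _ (hRc.mono hsub) fun τ hτ => ?_))
      (fun τ hτ => exp_im _ _ (hDe τ (hsub hτ)))
    have habs : |τ - 1 / 2| = 1 / 2 - τ := by rw [abs_of_neg (by linarith [hτ.2])]; ring
    rcases le_total δ |τ - 1 / 2| with h5 | h5
    · exact hRfar τ (hsub hτ) h5
    · refine hRnear τ (hsub hτ) h5 ?_
      rw [habs, ← hAh]
      have := hτ.2
      nlinarith
  have c2 : (D (1 / 2 + h)).im - arg (R (1 / 2 + h)) = (D 1).im - arg (R 1) := by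
    have hsub : Icc (1 / 2 + h : ℝ) 1 ⊆ Icc 0 1 := Icc_subset_Icc_left (by linarith)
    refine const_int (fun τ => (D τ).im - arg (R τ)) (1 / 2 + h) 1 (by linarith)
      ((himc _ hsub).sub (hargc R _ (hRc.mono hsub) fun τ hτ => ?_))
      (fun τ hτ => exp_im _ _ (hDe τ (hsub hτ)))
    have habs : |τ - 1 / 2| = τ - 1 / 2 := abs_of_pos (by linarith [hτ.1])
    rcases le_total δ |τ - 1 / 2| with h5 | h5
    · exact hRfar τ (hsub hτ) h5
    · refine hRnear τ (hsub hτ) h5 ?_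
      rw [habs, ← hAh]
      have := hτ.1
      nlinarith
  have c3 : (D (1 / 2 - h)).im - arg (-R (1 / 2 - h)) =
      (D (1 / 2 + h)).im - arg (-R (1 / 2 + h)) := by
    have hsub : Icc (1 / 2 - h : ℝ) (1 / 2 + h) ⊆ Icc 0 1 :=
      Icc_subset_Icc (by linarith) (by linarith)
    have h5 := const_int (fun τ => (D τ).im - arg (-R τ) - Real.pi) (1 / 2 - h) (1 / 2 + h)
      (by linarith)
      (((himc _ hsub).sub (hargc (fun τ => -R τ) _ (hRc.mono hsub).neg fun τ hτ => ?_)).sub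
        continuousOn_const)
      (fun τ hτ => ?_)
    · linarith
    · have habs : |τ - 1 / 2| ≤ h := abs_le.2 ⟨by linarith [hτ.1], by linarith [hτ.2]⟩
      refine hRneg τ (hsub hτ) (habs.trans hhδ) ?_
      rw [← hAh]
      gcongr
    · obtain ⟨n, hn⟩ := exp_im (D τ + Real.pi * I) (-R τ) (by
        rw [Complex.exp_add, Complex.exp_pi_mul_I, hDe τ (hsub hτ)]; ring)
      refine ⟨n - 1, ?_⟩
      simp only [add_im, mul_im, ofReal_re, I_im, mul_one, ofReal_im, I_re, mul_zero, add_zero] at hn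
      push_cast
      linarith
  -- signs
  have hval : ∀ (τ : ℝ) (sgn : ℝ), τ ∈ Icc (0 : ℝ) 1 → |τ - 1 / 2| ≤ δ → sgn ^ 2 = 1 →
      A * (τ - 1 / 2) = sgn * η → ‖R τ - ((-sgn : ℝ) : ℂ) * I‖ < 1 := by
    intro τ sgn hτ h5 hs h6
    have h7 := hnear τ hτ h5 _ rfl
    rw [h6] at h7
    have h8 : ((sgn * η) ^ 2 - η ^ 2) / ((sgn * η) ^ 2 + η ^ 2) = 0 := by
      rw [mul_pow, hs]; simp
    have h9 : -(2 * (sgn * η) * η) / ((sgn * η) ^ 2 + η ^ 2) = -sgn := by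
      rw [mul_pow, hs]; field_simp; ring
    rw [h8, h9, ofReal_zero, zero_add] at h7
    refine lt_of_lt_of_le h7 ?_
    rw [norm_mul, Complex.norm_I, mul_one, Complex.norm_real, norm_neg, Real.norm_eq_abs]
    have : |sgn| ^ 2 = 1 := by rw [sq_abs, hs]
    nlinarith [abs_nonneg sgn]
  have s1 := hval (1 / 2 + h) 1 ⟨by linarith, by linarith⟩
    (by rw [add_sub_cancel_left, abs_of_pos hh0]; exact hhδ) (by norm_num)
    (by rw [add_sub_cancel_left, hAh, one_mul])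
  have s2 := hval (1 / 2 - h) (-1) ⟨by linarith, by linarith⟩
    (by rw [sub_sub_cancel_left, abs_neg, abs_of_pos hh0]; exact hhδ) (by norm_num)
    (by rw [sub_sub_cancel_left, mul_neg, hAh]; ring)
  have im1 : (R (1 / 2 + h)).im < 0 := by
    have h5 := (Complex.abs_im_le_norm _).trans_lt s1
    rw [abs_lt] at h5
    simp at h5
    linarith [h5.2]
  have im2 : 0 < (R (1 / 2 - h)).im := by
    have h5 := (Complex.abs_im_le_norm _).trans_lt s2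
    rw [abs_lt] at h5
    simp at h5
    linarith [h5.1]
  have a1 : arg (R (1 / 2 + h)) < 0 := arg_neg_iff.2 im1
  have a2 : 0 ≤ arg (R (1 / 2 - h)) := arg_nonneg_iff.2 im2.le
  have a3 : 0 ≤ arg (-R (1 / 2 + h)) := arg_nonneg_iff.2 (by rw [neg_im]; linarith)
  have a4 : arg (-R (1 / 2 - h)) < 0 := arg_neg_iff.2 (by rw [neg_im]; linarith)
  rw [← hDcl, ← hRcl] at c2
  linarith

/-! ### The coordinates -/

theorem mem_Dom {g : ℝ} (hg : 0 ≤ g) (w : ℂ) : w ∈ Dom g ↔ Real.exp g < ‖w‖ := by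
  change g < Real.log ‖w‖ ↔ _
  constructor
  · intro h
    have h1 : 0 < ‖w‖ := by
      rw [norm_pos_iff]
      rintro rfl
      rw [norm_zero, Real.log_zero] at h
      linarith
    exact (Real.lt_log_iff_exp_lt h1).1 h
  · intro h
    exact (Real.lt_log_iff_exp_lt ((Real.exp_pos g).trans h)).2 h

theorem isOpen_Dom {g : ℝ} (hg : 0 ≤ g) : IsOpen (Dom g) := by
  have : Dom g = {w | Real.exp g < ‖w‖} := by ext w; exact mem_Dom hg w
  rw [this]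
  exact isOpen_lt continuous_const continuous_norm

theorem norm_ex (σ t : ℝ) : ‖ex σ t‖ = Real.exp σ := by
  unfold ex
  rw [Complex.norm_exp]
  simp

theorem ex_mem {g σ : ℝ} (t : ℝ) (h : g < σ) : ex σ t ∈ Dom g := by
  change g < Real.log ‖ex σ t‖
  rw [norm_ex, Real.log_exp]
  exact h

theorem ex_eq {σ t σ' t' : ℝ} (h : ex σ t = ex σ' t') : σ = σ' ∧ ∃ n : ℤ, t = t' + n := by
  have h1 : σ = σ' := by
    have := congrArg (fun z : ℂ => Real.log ‖z‖) h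
    simpa [norm_ex] using this
  refine ⟨h1, ?_⟩
  unfold ex at h
  rw [Complex.exp_eq_exp_iff_exists_int] at h
  obtain ⟨n, hn⟩ := h
  refine ⟨n, ?_⟩
  have h2 := congrArg Complex.im hn
  have h3 : (2 * Real.pi) * t = (2 * Real.pi) * (t' + n) := by
    simp at h2
    linarith
  exact mul_left_cancel₀ (by positivity) h3

theorem continuous_ex : Continuous (fun p : ℝ × ℝ => ex p.1 p.2) := by
  unfold ex
  fun_prop

theorem no_int {x : ℝ} (h0 : 0 < x) (h1 : x < 1) (n : ℤ) : x ≠ n := by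
  rintro rfl
  have h2 : 0 < n := by exact_mod_cast h0
  have h3 : n < 1 := by exact_mod_cast h1
  omega

theorem onLoop {F : ℂ → ℂ} {g bm bp s : ℝ} {γ : ℝ → ℂ} (hi : InjOn F (Dom g))
    (L : SectLoop F g bm bp s γ) {σ t : ℝ} (hσ : g < σ) (h : F (ex σ t) ∈ im γ) :
    σ ≤ s ∧ ∃ (u : ℝ) (n : ℤ), t = u + n ∧ ((u = bm ∨ u = bp) ∨ (σ = s ∧ u ∈ Icc bm bp)) := by
  obtain ⟨τ, hτ, h⟩ := h
  have hs : 0 < s := lt_of_le_of_lt L.hg L.hgs
  have hb := L.hb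
  rcases le_total τ (1 / 3) with h1 | h1
  · by_cases h2 : g < 3 * τ * s
    · rw [L.left τ ⟨hτ.1, h1⟩ h2] at h
      obtain ⟨h3, n, h4⟩ := ex_eq (hi (ex_mem _ hσ) (ex_mem _ h2) h.symm)
      refine ⟨?_, bm, n, h4, Or.inl (Or.inl rfl)⟩
      rw [h3]
      nlinarith
    · exact absurd (mem_image_of_mem F (ex_mem t hσ)) (by
        rw [← h]; exact L.leftlow τ ⟨hτ.1, h1⟩ (not_lt.1 h2))
  · rcases le_total τ (2 / 3) with h1' | h1'
    · rw [L.mid τ ⟨h1, h1'⟩] at h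
      obtain ⟨h3, n, h4⟩ := ex_eq (hi (ex_mem _ hσ) (ex_mem _ L.hgs) h.symm)
      refine ⟨h3.le, _, n, h4, Or.inr ⟨h3, ?_, ?_⟩⟩
      · nlinarith
      · nlinarith
    · by_cases h2 : g < 3 * (1 - τ) * s
      · rw [L.right τ ⟨h1', hτ.2⟩ h2] at h
        obtain ⟨h3, n, h4⟩ := ex_eq (hi (ex_mem _ hσ) (ex_mem _ h2) h.symm)
        refine ⟨?_, bp, n, h4, Or.inl (Or.inr rfl)⟩
        rw [h3]
        nlinarith
      · exact absurd (mem_image_of_mem F (ex_mem t hσ)) (by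
          rw [← h]; exact L.rightlow τ ⟨h1', hτ.2⟩ (not_lt.1 h2))

theorem cont_F {F : ℂ → ℂ} {g : ℝ} (hF : DifferentiableOn ℂ F (Dom g)) (S : Set (ℝ × ℝ))
    (hS : ∀ p ∈ S, g < p.1) : ContinuousOn (fun p : ℝ × ℝ => F (ex p.1 p.2)) S :=
  hF.continuousOn.comp continuous_ex.continuousOn (fun p hp => ex_mem _ (hS p hp))

/-- **SECT.** -/
theorem sect : S_TOP → S_SECT := by
  rintro ⟨top1, top2, -⟩ F g bm bp s γ hF hi hinf L
  have hs : 0 < s := lt_of_le_of_lt L.hg L.hgs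
  have hb := L.hb
  have hb1 := L.hb1
  -- the outside
  have out1 : ∀ σ t : ℝ, g < σ → (s < σ ∨ ∀ n : ℤ, t + n ∉ Icc bm bp) → F (ex σ t) ∉ im γ := by
    intro σ t hσ h hm
    obtain ⟨h1, u, n, h2, h3⟩ := onLoop hi L hσ hm
    rcases h with h | h
    · linarith
    · apply h (-n)
      have : t + ((-n : ℤ) : ℝ) = u := by rw [h2]; push_cast; ring
      rw [this]
      rcases h3 with (rfl | rfl) | h3
      · exact ⟨le_rfl, hb.le⟩
      · exact ⟨hb.le, le_rfl⟩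
      · exact h3.2
  have out2 : ∀ σ t : ℝ, g < σ → (s < σ ∨ ∀ n : ℤ, t + n ∉ Icc bm bp) →
      ¬ Enc γ (F (ex σ t)) := by
    intro σ t hσ h henc
    obtain ⟨r, hr⟩ : ∃ r, im γ ⊆ ball 0 r :=
      (isCompact_Icc.image_of_continuousOn L.cont).isBounded.subset_ball 0
    have h1 : Tendsto (fun σ' : ℝ => ex σ' t) atTop (cobounded ℂ) := by
      rw [← tendsto_norm_atTop_iff_cobounded]
      simp only [norm_ex]
      exact Real.tendsto_exp_atTop
    have h2 := (hinf.comp h1).norm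
    rw [norm_one] at h2
    have h3 : ∀ᶠ σ' : ℝ in atTop, 1 / 2 < ‖F (ex σ' t) / ex σ' t‖ :=
      h2.eventually (lt_mem_nhds (by norm_num))
    have h4 : ∀ᶠ σ' : ℝ in atTop, 2 * r < Real.exp σ' :=
      Real.tendsto_exp_atTop.eventually (eventually_gt_atTop _)
    obtain ⟨σ', h5, h6, h7⟩ := (h3.and (h4.and (eventually_ge_atTop σ))).exists
    have h8 : F (ex σ' t) ∉ ball (0 : ℂ) r := by
      rw [mem_ball, dist_zero_right, not_lt]
      rw [norm_div, norm_ex, lt_div_iff₀ (Real.exp_pos _)] at h5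
      linarith
    refine top2 γ 0 (F (ex σ' t)) r L.cont L.closed hr h8 ?_
    refine top1 γ ((fun σ' => F (ex σ' t)) '' Ici σ) L.cont L.closed
      (isPreconnected_Ici.image _ ?_) ?_ (F (ex σ t)) ⟨σ, Set.mem_Ici.2 le_rfl, rfl⟩ _ ⟨σ', h7, rfl⟩ henc
    · have := (cont_F hF (Ici σ ×ˢ {t}) (fun p hp => lt_of_lt_of_le hσ hp.1)).comp
        (f := fun x : ℝ => (x, t)) (s := Ici σ) (by fun_prop) (fun x hx => ⟨hx, rfl⟩)
      exact this
    · rw [Set.disjoint_left]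
      rintro _ ⟨σ₁, hσ₁, rfl⟩ hm
      refine out1 σ₁ t (lt_of_lt_of_le hσ hσ₁) ?_ hm
      rcases h with h | h
      · exact Or.inl (lt_of_lt_of_le h hσ₁)
      · exact Or.inr h
  -- the sector is not on the loop
  have in1 : ∀ σ t : ℝ, g < σ → σ < s → t ∈ Ioo bm bp → F (ex σ t) ∉ im γ := by
    intro σ t hσ hσs ht hm
    obtain ⟨h1, u, n, h2, h3⟩ := onLoop hi L hσ hm
    rcases h3 with (rfl | rfl) | h3
    · exact no_int (x := t - u) (by linarith [ht.1]) (by linarith [ht.2]) n (by linarith)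
    · refine no_int (x := u - t) (by linarith [ht.2]) (by linarith [ht.1]) (-n) ?_
      push_cast
      linarith
    · exact absurd h3.1 hσs.ne
  -- the jump
  obtain ⟨t₀, ht₀⟩ : ∃ t₀, t₀ = (bm + bp) / 2 := ⟨_, rfl⟩
  obtain ⟨ζ₀, hζ₀⟩ : ∃ ζ₀ : ℂ, ζ₀ = (s : ℂ) + 2 * Real.pi * t₀ * I := ⟨_, rfl⟩
  have hex : ∀ η : ℝ, Complex.exp (ζ₀ + η) = ex (s + η) t₀ := by
    intro η
    rw [hζ₀]
    unfold ex
    refine congrArg Complex.exp ?_
    push_cast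
    ring
  have hex0 : Complex.exp ζ₀ = ex s t₀ := by rw [hζ₀]; rfl
  have hw0 : Complex.exp ζ₀ ∈ Dom g := by rw [hex0]; exact ex_mem _ L.hgs
  have hF0 : deriv F (Complex.exp ζ₀) ≠ 0 :=
    deriv_ne_zero_of_injOn' (isOpen_Dom L.hg) hF hi hw0
  have hFs : HasStrictDerivAt F (deriv F (Complex.exp ζ₀)) (Complex.exp ζ₀) :=
    (hF.analyticAt ((isOpen_Dom L.hg).mem_nhds hw0)).hasStrictDerivAt
  have hHs : HasStrictDerivAt (fun ζ => F (Complex.exp ζ))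
      (deriv F (Complex.exp ζ₀) * Complex.exp ζ₀) ζ₀ :=
    hFs.comp ζ₀ (Complex.hasStrictDerivAt_exp ζ₀)
  obtain ⟨η₀, hη₀, hj⟩ := jump γ L.cont L.closed (fun ζ => F (Complex.exp ζ)) ζ₀
    (deriv F (Complex.exp ζ₀) * Complex.exp ζ₀) (mul_ne_zero hF0 (Complex.exp_ne_zero _)) hHs
    (6 * Real.pi * (bp - bm)) (by
      have := Real.pi_pos
      have : 0 < bp - bm := by linarith
      positivity)
    (by
      intro τ hτ
      rw [L.mid τ hτ]
      refine congrArg F ?_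
      unfold ex
      refine congrArg Complex.exp ?_
      rw [hζ₀, ht₀]
      push_cast
      ring)
    (by
      intro τ hτ hne heq
      change γ τ = F (Complex.exp ζ₀) at heq
      rw [hex0] at heq
      rcases le_total τ (1 / 3) with h1 | h1
      · by_cases h2 : g < 3 * τ * s
        · rw [L.left τ ⟨hτ.1, h1⟩ h2] at heq
          obtain ⟨h3, n, h4⟩ := ex_eq (hi (ex_mem _ h2) (ex_mem _ L.hgs) heq)
          refine no_int (x := t₀ - bm) (by linarith) (by linarith) (-n) ?_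
          push_cast
          linarith
        · exact absurd (mem_image_of_mem F (ex_mem t₀ L.hgs)) (by
            rw [← heq]; exact L.leftlow τ ⟨hτ.1, h1⟩ (not_lt.1 h2))
      · rcases le_total τ (2 / 3) with h1' | h1'
        · rw [L.mid τ ⟨h1, h1'⟩] at heq
          obtain ⟨h3, n, h4⟩ := ex_eq (hi (ex_mem _ L.hgs) (ex_mem _ L.hgs) heq)
          have h5 : (3 * τ - 3 / 2) * (bp - bm) = n := by rw [ht₀] at h4; linarith
          have h6 : (3 * τ - 3 / 2) * (bp - bm) < 1 := by nlinarith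
          have h7 : -1 < (3 * τ - 3 / 2) * (bp - bm) := by nlinarith
          rw [h5] at h6 h7
          have h8 : n < 1 := by exact_mod_cast h6
          have h9 : -1 < n := by exact_mod_cast h7
          have h10 : n = 0 := by omega
          rw [h10, Int.cast_zero, mul_eq_zero] at h5
          rcases h5 with h5 | h5
          · apply hne; linarith
          · linarith
        · by_cases h2 : g < 3 * (1 - τ) * s
          · rw [L.right τ ⟨h1', hτ.2⟩ h2] at heq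
            obtain ⟨h3, n, h4⟩ := ex_eq (hi (ex_mem _ h2) (ex_mem _ L.hgs) heq)
            exact no_int (x := bp - t₀) (by linarith) (by linarith) n (by linarith)
          · exact absurd (mem_image_of_mem F (ex_mem t₀ L.hgs)) (by
              rw [← heq]; exact L.rightlow τ ⟨h1', hτ.2⟩ (not_lt.1 h2)))
  refine ⟨fun σ t hσ hσs ht => ⟨in1 σ t hσ hσs ht, ?_⟩, fun σ t hσ h => ⟨out1 σ t hσ h, out2 σ t hσ h⟩⟩
  obtain ⟨η, hη, hη1, hη2⟩ : ∃ η : ℝ, 0 < η ∧ η < η₀ ∧ g < s - η := by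
    have := L.hgs
    refine ⟨min (η₀ / 2) ((s - g) / 2), lt_min (by positivity) (by linarith), ?_, ?_⟩
    · exact lt_of_le_of_lt (min_le_left _ _) (by linarith)
    · have := min_le_right (η₀ / 2) ((s - g) / 2)
      linarith
  have hp : Enc γ (F (ex (s - η) t₀)) := by
    rcases hj η hη hη1 with h | h
    · rw [hex η] at h
      exact absurd h (out2 (s + η) t₀ (by linarith [L.hgs]) (Or.inl (by linarith)))
    · have h2 := hex (-η)
      rw [ofReal_neg, ← sub_eq_add_neg, ← sub_eq_add_neg] at h2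
      rw [h2] at h
      exact h
  refine top1 γ ((fun p : ℝ × ℝ => F (ex p.1 p.2)) '' (Ioo g s ×ˢ Ioo bm bp)) L.cont L.closed
    ((isPreconnected_Ioo.prod isPreconnected_Ioo).image _ (cont_F hF _ fun p hp => hp.1.1)) ?_
    (F (ex (s - η) t₀)) ⟨(s - η, t₀), ⟨⟨hη2, by linarith⟩, by rw [ht₀]; constructor <;> linarith⟩, rfl⟩ _
    ⟨(σ, t), ⟨⟨hσ, hσs⟩, ht⟩, rfl⟩ hp
  rw [Set.disjoint_left]
  rintro _ ⟨p, hp, rfl⟩ hm
  exact in1 p.1 p.2 hp.1.1 hp.1.2 hp.2 hm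

end Pool.Agent.Y319.LC
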